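import Pool.Agent.Run7.h748.Sph.Density
import Pool.Agent.H519R2.TSP.Vol

/-! Packings with missing residues: the exponential gap. -/

set_option autoImplicit false

open MeasureTheory ProbabilityTheory Metric Set Filter
open scoped NNReal ENNReal Topology Pointwise
open Pool.Agent.H818R2 Pool.Agent.R760.SP

namespace Run7.h748.Sph

/-- `vb / gc` is `2^{-n}` up to subexponential factors -/
lemma ratio_asymp {δ : ℝ} (hδ : 0 < δ) : ∃ n0 : ℕ, ∀ n : ℕ, n0 ≤ n → 0 < n →
    Real.exp (-(δ * n)) * (1 / 2) ^ n * gc n ≤ vb (EuclideanSpace ℝ (Fin n)) := by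
  have h1 := Pool.Agent.H519R2.TSP.tendsto_log_V
  have h2 := h1.eventually (lt_mem_nhds (show Real.log (2 * Real.pi * Real.exp 1) / 2 - δ <
    Real.log (2 * Real.pi * Real.exp 1) / 2 by linarith))
  obtain ⟨n0, hn0⟩ := eventually_atTop.1 h2
  refine ⟨n0, fun n hn hpos => ?_⟩
  have : NeZero n := ⟨hpos.ne'⟩
  have hnR : (0 : ℝ) < n := by exact_mod_cast hpos
  have h3 := hn0 n hn
  have hV : 0 < vb (EuclideanSpace ℝ (Fin n)) := vb_pos
  have hVV : Pool.Agent.H519R2.TSP.V n = vb (EuclideanSpace ℝ (Fin n)) := rfl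
  rw [hVV] at h3
  have hg := gc_pos hpos
  rw [← Real.log_le_log_iff (by positivity) hV, Real.log_mul (by positivity) hg.ne',
    Real.log_mul (by positivity) (by positivity), Real.log_exp, Real.log_pow]
  have h4 : Real.log (gc n) = n * (Real.log (2 * Real.pi * (4 / n)) / 2) + n / 2 := by
    unfold gc
    rw [Real.log_mul (by positivity) (by positivity), Real.log_exp, Real.log_pow,
      Real.log_sqrt (by positivity)]
  have h5 : Real.log (2 * Real.pi * (4 / n)) = Real.log 2 + Real.log Real.pi + 2 * Real.log 2 -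
      Real.log n := by
    rw [Real.log_mul (by positivity) (by positivity), Real.log_mul (by norm_num) Real.pi_pos.ne',
      Real.log_div (by norm_num) hnR.ne', show (4 : ℝ) = 2 ^ 2 by norm_num, Real.log_pow]
    push_cast
    ring
  have h6 : Real.log (2 * Real.pi * Real.exp 1) = Real.log 2 + Real.log Real.pi + 1 := by
    rw [Real.log_mul (by positivity) (by positivity), Real.log_mul (by norm_num) Real.pi_pos.ne',
      Real.log_exp]
  have h7 : Real.log (1 / 2) = -Real.log 2 := by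
    rw [one_div, Real.log_inv]
  rw [h6] at h3
  rw [h4, h5, h7]
  have h8 : (Real.log 2 + Real.log Real.pi + 1) / 2 - δ - Real.log n / 2 <
      Real.log (vb (EuclideanSpace ℝ (Fin n))) / n := by linarith
  rw [lt_div_iff₀ hnR] at h8
  nlinarith

/-- radius one -/
theorem missing_one (k : ℕ) {α τ ε : ℝ} (hα : 0 < α) (hτ0 : 0 < τ) (hτ1 : τ ≤ 1) (hε : 0 < ε) :
    ∃ c : ℝ, 0 < c ∧ ∃ n0 : ℕ, ∀ n : ℕ, n0 ≤ n → ∀ F : Finset (Finset (Fin n)),
      (F : Set (Finset (Fin n))).PairwiseDisjoint id → (∀ S ∈ F, S.card ≤ k) →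
      ε * n ≤ F.card → ∀ u : Fin n → ℝ, ∀ X : Set (EuclideanSpace ℝ (Fin n)), IsPacking X 1 →
      (∀ x ∈ X, ∀ S ∈ F, ∃ i ∈ S, τ ≤ Int.fract ((x i - u i) / (α / √n))) →
      Real.exp (c * n) * min (upperDensity X 1) ((1 / 2) ^ n) ≤ rho n := by
  obtain ⟨f, b, B, β, hK⟩ := exists_ker hτ0 hτ1 (2 / α) k
  have hB := hK.one_le
  have hβ := hK.pos
  have hBk : (0 : ℝ) < 1 + B ^ k := by positivity
  set η : ℝ := β ^ k / (2 * (1 + B ^ k)) with hη
  have hη0 : 0 < η := by rw [hη]; positivity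
  set γ : ℝ := η ^ 2 / 16 * ε with hγ
  have hγ0 : 0 < γ := by rw [hγ]; positivity
  obtain ⟨n1, hn1⟩ := ratio_asymp (δ := γ / 4) (by linarith)
  obtain ⟨n2, hn2⟩ := exists_nat_gt (4 / γ)
  refine ⟨γ / 2, by linarith, max n1 (max n2 1), ?_⟩
  intro n hn F hF hFk hFn u X hX hx
  have hnn1 : n1 ≤ n := (le_max_left _ _).trans hn
  have hnn2 : n2 ≤ n := ((le_max_left _ _).trans (le_max_right _ _)).trans hn
  have hn0 : 0 < n := ((le_max_right _ _).trans (le_max_right _ _)).trans hn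
  have hnR : (0 : ℝ) < n := by exact_mod_cast hn0
  have h2 : 2 ≤ Real.exp (γ / 4 * n) := by
    have h3 : (4 / γ) < n := hn2.trans_le (by exact_mod_cast hnn2)
    rw [div_lt_iff₀ hγ0] at h3
    have h4 := Real.add_one_le_exp (γ / 4 * n)
    linarith
  have hρ : 0 ≤ rho n := optDensity_nonneg
  have hq : Real.exp (-(η ^ 2 * F.card / 16)) ≤ Real.exp (-(γ * n)) := by
    apply Real.exp_le_exp.2
    rw [neg_le_neg_iff, hγ]
    have h5 : η ^ 2 / 16 * (ε * n) ≤ η ^ 2 / 16 * F.card :=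
      mul_le_mul_of_nonneg_left hFn (by positivity)
    linarith
  have hmin0 : 0 ≤ min (upperDensity X 1) ((1 / 2) ^ n) :=
    le_min (upperDensity_nonneg _ _) (by positivity)
  rcases alternative hK hα hn0 rfl u hF hFk hX hx hη with h | h
  · have h6 : min (upperDensity X 1) ((1 / 2) ^ n) ≤ 2 * (rho n * Real.exp (-(γ * n))) := by
      refine (min_le_left _ _).trans (h.trans ?_)
      have := mul_le_mul_of_nonneg_left hq hρ
      linarith
    calc Real.exp (γ / 2 * n) * min (upperDensity X 1) ((1 / 2) ^ n)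
        ≤ Real.exp (γ / 2 * n) * (2 * (rho n * Real.exp (-(γ * n)))) :=
          mul_le_mul_of_nonneg_left h6 (Real.exp_pos _).le
      _ = rho n * (2 * (Real.exp (γ / 2 * n) * Real.exp (-(γ * n)))) := by ring
      _ ≤ rho n * 1 := by
          apply mul_le_mul_of_nonneg_left _ hρ
          rw [← Real.exp_add]
          have h7 : γ / 2 * n + -(γ * n) = -(γ / 4 * n) + -(γ / 4 * n) := by ring
          rw [h7, Real.exp_add]
          have h8 : Real.exp (-(γ / 4 * n)) ≤ 1 / 2 := by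
            rw [Real.exp_neg, one_div]
            exact inv_anti₀ (by norm_num) h2
          have h9 : 0 < Real.exp (-(γ / 4 * n)) := Real.exp_pos _
          nlinarith
      _ = rho n := mul_one _
  · have hv := vb_pos (E := EuclideanSpace ℝ (Fin n))
    have hg := gc_pos hn0
    have h6 := hn1 n hnn1 hn0
    have h7 : vb (EuclideanSpace ℝ (Fin n)) / (2 * gc n) ≤ rho n * Real.exp (-(γ * n)) :=
      h.trans (mul_le_mul_of_nonneg_left hq hρ)
    have h8 : Real.exp (-(γ / 4 * n)) * (1 / 2) ^ n / 2 ≤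
        vb (EuclideanSpace ℝ (Fin n)) / (2 * gc n) := by
      rw [div_le_div_iff₀ (by norm_num) (by positivity)]
      nlinarith
    have h9 : Real.exp (γ * n) * (Real.exp (-(γ / 4 * n)) * (1 / 2) ^ n / 2) ≤ rho n := by
      calc Real.exp (γ * n) * (Real.exp (-(γ / 4 * n)) * (1 / 2) ^ n / 2)
          ≤ Real.exp (γ * n) * (rho n * Real.exp (-(γ * n))) :=
            mul_le_mul_of_nonneg_left (h8.trans h7) (Real.exp_pos _).le
        _ = rho n * (Real.exp (γ * n) * Real.exp (-(γ * n))) := by ring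
        _ = rho n := by rw [← Real.exp_add, add_neg_cancel, Real.exp_zero, mul_one]
    calc Real.exp (γ / 2 * n) * min (upperDensity X 1) ((1 / 2) ^ n)
        ≤ Real.exp (γ / 2 * n) * (1 / 2) ^ n :=
          mul_le_mul_of_nonneg_left (min_le_right _ _) (Real.exp_pos _).le
      _ ≤ Real.exp (γ / 2 * n) * (1 / 2) ^ n * (Real.exp (γ / 4 * n) / 2) := by
          have h10 : 1 ≤ Real.exp (γ / 4 * n) / 2 := by linarith
          have h11 : 0 ≤ Real.exp (γ / 2 * n) * (1 / 2) ^ n := by positivity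
          nlinarith
      _ = Real.exp (γ * n) * (Real.exp (-(γ / 4 * n)) * (1 / 2) ^ n / 2) := by
          have h12 : Real.exp (γ * n) * Real.exp (-(γ / 4 * n)) =
              Real.exp (γ / 2 * n) * Real.exp (γ / 4 * n) := by
            rw [← Real.exp_add, ← Real.exp_add]
            congr 1
            ring
          calc Real.exp (γ / 2 * n) * (1 / 2) ^ n * (Real.exp (γ / 4 * n) / 2)
              = (Real.exp (γ / 2 * n) * Real.exp (γ / 4 * n)) * ((1 / 2) ^ n / 2) := by ring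
            _ = _ := by rw [← h12]; ring
      _ ≤ rho n := h9

/-- **Missing residues.** -/
theorem missing_residues (k : ℕ) {α τ ε : ℝ} (hα : 0 < α) (hτ0 : 0 < τ) (hτ1 : τ ≤ 1)
    (hε : 0 < ε) :
    ∃ c : ℝ, 0 < c ∧ ∃ n0 : ℕ, ∀ n : ℕ, n0 ≤ n → ∀ F : Finset (Finset (Fin n)),
      (F : Set (Finset (Fin n))).PairwiseDisjoint id → (∀ S ∈ F, S.card ≤ k) →
      ε * n ≤ F.card → ∀ u : Fin n → ℝ, ∀ (X : Set (EuclideanSpace ℝ (Fin n))) (r : ℝ),
      IsPacking X r →
      (∀ x ∈ X, ∀ S ∈ F, ∃ i ∈ S, τ ≤ Int.fract ((x i - u i) / (α * r / √n))) →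
      Real.exp (c * n) * min (upperDensity X r) ((1 / 2) ^ n) ≤ rho n := by
  obtain ⟨c, hc, n0, h⟩ := missing_one k hα hτ0 hτ1 hε
  refine ⟨c, hc, n0, ?_⟩
  intro n hn F hF hFk hFn u X r hX hx
  have hr : 0 < r := hX.1
  have h1 : IsPacking (r⁻¹ • X) 1 := by
    have := isPacking_smul hX (inv_pos.2 hr)
    rwa [inv_mul_cancel₀ hr.ne'] at this
  have h2 : upperDensity (r⁻¹ • X) 1 = upperDensity X r := by
    have := upperDensity_smul (X := X) (r := r) (inv_pos.2 hr)
    rwa [inv_mul_cancel₀ hr.ne'] at this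
  rw [← h2]
  apply h n hn F hF hFk hFn (fun i => r⁻¹ * u i) _ h1
  intro y hy S hS
  obtain ⟨x, hxX, rfl⟩ := mem_smul_set.1 hy
  obtain ⟨i, hi, hxi⟩ := hx x hxX S hS
  refine ⟨i, hi, ?_⟩
  have h3 : ((r⁻¹ • x) i - r⁻¹ * u i) / (α / √n) = (x i - u i) / (α * r / √n) := by
    rw [PiLp.smul_apply, smul_eq_mul, ← mul_sub]
    rcases Nat.eq_zero_or_pos n with h0 | h0
    · subst h0
      exact i.elim0
    · have hnR : (0 : ℝ) < n := by exact_mod_cast h0
      field_simp
  rw [h3]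
  exact hxi

end Run7.h748.Sph
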