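import Mathlib

/-! Exponential moments of sums of functions of disjoint blocks of coordinates. -/

set_option autoImplicit false

open MeasureTheory ProbabilityTheory

namespace Run7.h748.Sph

variable {n : ℕ}

/-- `f` depends only on the coordinates in `S`, in a measurable way. -/
def Dep (S : Finset (Fin n)) (f : (Fin n → ℝ) → ℝ) : Prop :=
  ∃ F : (S → ℝ) → ℝ, Measurable F ∧ ∀ v, f v = F (fun i => v i)

lemma Dep.measurable {S : Finset (Fin n)} {f : (Fin n → ℝ) → ℝ} (h : Dep S f) : Measurable f := by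
  obtain ⟨F, hF, hf⟩ := h
  have : f = fun v => F (fun i => v i) := funext hf
  rw [this]
  exact hF.comp (measurable_pi_lambda _ fun i => measurable_pi_apply _)

lemma Dep.comp {S : Finset (Fin n)} {f : (Fin n → ℝ) → ℝ} (h : Dep S f) {g : ℝ → ℝ}
    (hg : Measurable g) : Dep S (fun v => g (f v)) := by
  obtain ⟨F, hF, hf⟩ := h
  exact ⟨fun y => g (F y), hg.comp hF, fun v => by simp only [hf]⟩

lemma Dep.mono {S T : Finset (Fin n)} (hST : S ⊆ T) {f : (Fin n → ℝ) → ℝ} (h : Dep S f) :
    Dep T f := by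
  obtain ⟨F, hF, hf⟩ := h
  refine ⟨fun y => F (fun i => y ⟨i, hST i.2⟩), ?_, fun v => by rw [hf]⟩
  exact hF.comp (measurable_pi_lambda _ fun i => measurable_pi_apply _)

lemma Dep.prod {F : Finset (Finset (Fin n))} {T : Finset (Fin n)} {f : Finset (Fin n) → (Fin n → ℝ) → ℝ}
    (h : ∀ S ∈ F, Dep T (f S)) : Dep T (fun v => ∏ S ∈ F, f S v) := by
  classical
  choose! G hG hf using h
  refine ⟨fun y => ∏ S ∈ F, G S y, Finset.measurable_prod _ fun S hS => hG S hS, fun v => ?_⟩
  exact Finset.prod_congr rfl fun S hS => hf S hS v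

variable (μ : Fin n → Measure ℝ) [∀ i, IsProbabilityMeasure (μ i)]

lemma integral_mul_of_disjoint {S T : Finset (Fin n)} (hST : Disjoint S T)
    {f g : (Fin n → ℝ) → ℝ} (hf : Dep S f) (hg : Dep T g) :
    ∫ v, f v * g v ∂(Measure.pi μ) = (∫ v, f v ∂(Measure.pi μ)) * ∫ v, g v ∂(Measure.pi μ) := by
  have h0 : iIndepFun (fun (i : Fin n) (v : Fin n → ℝ) => v i) (Measure.pi μ) :=
    iIndepFun_pi (X := fun (i : Fin n) (x : ℝ) => x) (fun _ => aemeasurable_id)
  have h1 := h0.indepFun_finset S T hST (fun i => measurable_pi_apply i)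
  obtain ⟨F, hF, hf'⟩ := hf
  obtain ⟨G, hG, hg'⟩ := hg
  have h2 := h1.comp hF hG
  have e1 : f = F ∘ (fun v (i : S) => v i) := funext hf'
  have e2 : g = G ∘ (fun v (i : T) => v i) := funext hg'
  rw [e1, e2]
  apply h2.integral_fun_mul_eq_mul_integral
  · exact (hF.comp (measurable_pi_lambda _ fun i => measurable_pi_apply _)).aestronglyMeasurable
  · exact (hG.comp (measurable_pi_lambda _ fun i => measurable_pi_apply _)).aestronglyMeasurable

lemma integral_prod_of_disjoint (F : Finset (Finset (Fin n)))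
    (hF : (F : Set (Finset (Fin n))).PairwiseDisjoint id) (f : Finset (Fin n) → (Fin n → ℝ) → ℝ)
    (hf : ∀ S ∈ F, Dep S (f S)) :
    ∫ v, ∏ S ∈ F, f S v ∂(Measure.pi μ) = ∏ S ∈ F, ∫ v, f S v ∂(Measure.pi μ) := by
  classical
  induction F using Finset.induction_on with
  | empty => simp
  | insert S F hS ih =>
    simp only [Finset.prod_insert hS]
    have hF' : (F : Set (Finset (Fin n))).PairwiseDisjoint id := hF.subset (by simp)
    have hdis : Disjoint S (F.biUnion id) := by
      rw [Finset.disjoint_biUnion_right]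
      intro T hT
      exact hF (by simp) (by simp [hT]) (by rintro rfl; exact hS hT)
    rw [integral_mul_of_disjoint μ hdis (hf S (by simp))
      (g := fun v => ∏ T ∈ F, f T v), ih hF' fun T hT => hf T (by simp [hT])]
    apply Dep.prod
    intro T hT
    exact (hf T (by simp [hT])).mono fun i hi => Finset.mem_biUnion.2 ⟨T, hT, hi⟩

lemma exp_quad {y : ℝ} (h : |y| ≤ 1) : Real.exp y ≤ 1 + y + y ^ 2 := by
  have h := Real.abs_exp_sub_one_sub_id_le (x := y) h
  have := (abs_le.1 h).2
  linarith

/-- the exponential moment of a sum of functions of disjoint blocks -/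
lemma mgf_blocks (F : Finset (Finset (Fin n)))
    (hF : (F : Set (Finset (Fin n))).PairwiseDisjoint id) (f : Finset (Fin n) → (Fin n → ℝ) → ℝ)
    (hf : ∀ S ∈ F, Dep S (f S)) (habs : ∀ S ∈ F, ∀ v, |f S v| ≤ 1) {s : ℝ} (hs0 : |s| ≤ 1) :
    ∫ v, Real.exp (s * ∑ S ∈ F, f S v) ∂(Measure.pi μ) ≤
      Real.exp (s * ∑ S ∈ F, (∫ v, f S v ∂(Measure.pi μ)) + s ^ 2 * F.card) := by
  have h1 : ∫ v, Real.exp (s * ∑ S ∈ F, f S v) ∂(Measure.pi μ) =
      ∏ S ∈ F, ∫ v, Real.exp (s * f S v) ∂(Measure.pi μ) := by
    rw [← integral_prod_of_disjoint μ F hF (fun S v => Real.exp (s * f S v))]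
    · congr 1
      funext v
      rw [Finset.mul_sum, Real.exp_sum]
    · intro S hS
      exact (hf S hS).comp (g := fun y => Real.exp (s * y)) (by fun_prop)
  rw [h1]
  have h2 : ∀ S ∈ F, ∫ v, Real.exp (s * f S v) ∂(Measure.pi μ) ≤
      Real.exp (s * (∫ v, f S v ∂(Measure.pi μ)) + s ^ 2) := by
    intro S hS
    have hmeas := (hf S hS).measurable
    have hint : Integrable (f S) (Measure.pi μ) := by
      refine Integrable.mono' (integrable_const (1 : ℝ)) hmeas.aestronglyMeasurable ?_
      filter_upwards with v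
      simpa using habs S hS v
    have hle : ∀ v, s * f S v ≤ 1 ∧ |s * f S v| ≤ 1 := by
      intro v
      have ha := habs S hS v
      have h4 : |s * f S v| ≤ 1 := by
        rw [abs_mul]
        calc |s| * |f S v| ≤ 1 * 1 := mul_le_mul hs0 ha (abs_nonneg _) zero_le_one
          _ = 1 := by norm_num
      exact ⟨(le_abs_self _).trans h4, h4⟩
    have hint2 : Integrable (fun v => Real.exp (s * f S v)) (Measure.pi μ) := by
      refine Integrable.mono' (integrable_const (Real.exp 1))
        (by fun_prop) ?_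
      filter_upwards with v
      rw [Real.norm_eq_abs, Real.abs_exp]
      exact Real.exp_le_exp.2 (hle v).1
    have h3 : ∫ v, Real.exp (s * f S v) ∂(Measure.pi μ) ≤
        ∫ v, ((1 + s ^ 2) + s * f S v) ∂(Measure.pi μ) := by
      apply integral_mono hint2
      · exact (integrable_const _).add (hint.const_mul s)
      · intro v
        have ha := habs S hS v
        have h5 := exp_quad (hle v).2
        have h6 : (s * f S v) ^ 2 ≤ s ^ 2 := by
          rw [mul_pow]
          have : f S v ^ 2 ≤ 1 := by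
            rw [← sq_abs]
            nlinarith [abs_nonneg (f S v)]
          nlinarith [sq_nonneg s]
        show Real.exp (s * f S v) ≤ (1 + s ^ 2) + s * f S v
        linarith
    rw [integral_add (integrable_const _) (hint.const_mul s), integral_const,
      integral_const_mul] at h3
    simp only [probReal_univ, smul_eq_mul, one_mul] at h3
    have h7 := Real.add_one_le_exp (s * (∫ v, f S v ∂(Measure.pi μ)) + s ^ 2)
    linarith
  calc ∏ S ∈ F, ∫ v, Real.exp (s * f S v) ∂(Measure.pi μ)
      ≤ ∏ S ∈ F, Real.exp (s * (∫ v, f S v ∂(Measure.pi μ)) + s ^ 2) := by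
        apply Finset.prod_le_prod
        · intro S _
          exact integral_nonneg fun v => (Real.exp_pos _).le
        · exact h2
    _ = Real.exp (s * ∑ S ∈ F, (∫ v, f S v ∂(Measure.pi μ)) + s ^ 2 * F.card) := by
        rw [← Real.exp_sum, Finset.sum_add_distrib, ← Finset.mul_sum, Finset.sum_const,
          nsmul_eq_mul]
        congr 1
        ring

end Run7.h748.Sph
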