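import Pool.Agent.Run7.h748.Sph.Volume

/-! The alternative: a packing with missing residues is sparse, or the optimal density is large. -/

set_option autoImplicit false

open MeasureTheory ProbabilityTheory Metric Set Filter
open scoped NNReal ENNReal Topology
open Pool.Agent.H818R2 Pool.Agent.R760.SP

namespace Run7.h748.Sph

variable {n : ℕ} {τ s : ℝ} {k : ℕ} {c b : ℝ → ℝ} {B β : ℝ}

/-- the constant comparing the Gaussian measure and the volume -/
noncomputable def gc (n : ℕ) : ℝ := √(2 * Real.pi * (4 / n)) ^ n * Real.exp (n / 2)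

lemma gc_pos (hn : 0 < n) : 0 < gc n := by
  have hn0 : (0 : ℝ) < n := by exact_mod_cast hn
  unfold gc
  positivity

/-- the volume of the exclusion region of a finite set of allowed centres -/
lemma vol_nbhd (hK : Ker τ s k c b B β) {α : ℝ} (hα : 0 < α) (hn : 0 < n) (hs : 2 / α = s)
    (u : Fin n → ℝ) {F : Finset (Finset (Fin n))}
    (hF : (F : Set (Finset (Fin n))).PairwiseDisjoint id) (hFk : ∀ S ∈ F, S.card ≤ k)
    (X : Finset (EuclideanSpace ℝ (Fin n)))
    (hx : ∀ x ∈ X, ∀ S ∈ F, ∃ i ∈ S, τ ≤ Int.fract ((x i - u i) / (α / √n)))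
    {T : ℝ} (hT : ∀ x ∈ X, ‖x‖ ≤ T) {η : ℝ} (hη : η = β ^ k / (2 * (1 + B ^ k))) :
    volume.real (nbhd X) ≤ Real.exp (-(η ^ 2 * F.card / 16)) *
      (volume.real (ball (0 : EuclideanSpace ℝ (Fin n)) (T + 2 + α)) + X.card * gc n) := by
  have hB := hK.one_le
  have hβ := hK.pos
  have hBk : (0 : ℝ) < 1 + B ^ k := by positivity
  have hη0 : 0 < η := by rw [hη]; positivity
  have hη1 : η ≤ 1 := by
    rw [hη, div_le_one (by positivity)]
    have h1 : β ^ k ≤ 1 := pow_le_one₀ hβ.le hK.le_one
    have h2 : 0 ≤ B ^ k := by positivity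
    linarith
  have h1 : nbhd X ⊆ (ball (0 : EuclideanSpace ℝ (Fin n)) (T + 2) ∩
      {z : EuclideanSpace ℝ (Fin n) |
        η * F.card / 2 ≤ total c B β k (α / √n) u F z.ofLp}) ∪
      ⋃ x ∈ X, (ball x 2 ∩ {z : EuclideanSpace ℝ (Fin n) |
        total c B β k (α / √n) u F z.ofLp ≤ η * F.card / 2}) := by
    intro z hz
    obtain ⟨x, hx, hxz⟩ := mem_nbhd.1 hz
    rcases le_total (η * F.card / 2) (total c B β k (α / √n) u F z.ofLp) with h | h
    · left
      refine ⟨?_, h⟩
      rw [mem_ball_zero_iff]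
      rw [dist_eq_norm] at hxz
      calc ‖z‖ = ‖(z - x) + x‖ := by rw [sub_add_cancel]
        _ ≤ ‖z - x‖ + ‖x‖ := norm_add_le _ _
        _ < T + 2 := by linarith [hT x hx]
    · right
      simp only [mem_iUnion]
      exact ⟨x, hx, hxz, h⟩
  have h2 := measureReal_mono (μ := volume) h1 (by
    refine (measure_union_lt_top ?_ ?_).ne
    · exact (measure_mono inter_subset_left).trans_lt measure_ball_lt_top
    · apply measure_biUnion_lt_top (Finset.finite_toSet _)
      intro i _
      exact (measure_mono inter_subset_left).trans_lt measure_ball_lt_top)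
  refine h2.trans ((measureReal_union_le _ _).trans ?_)
  have h3 := vol_high hK hα hn u hF hFk (l := η / 4) (by linarith) (by linarith) (η * F.card / 2)
    (T + 2)
  have h4 : ∀ x ∈ X, volume.real (ball x 2 ∩ {z : EuclideanSpace ℝ (Fin n) |
        total c B β k (α / √n) u F z.ofLp ≤ η * F.card / 2}) ≤
      gc n * Real.exp (-(η ^ 2 * F.card / 16)) := by
    intro x hxX
    have h5 := vol_low hK hα hn hs u hF hFk x (hx x hxX) (l := η / 4) (by linarith) (by linarith)
      (η * F.card / 2)
    refine h5.trans (le_of_eq ?_)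
    rw [← hη, gc]
    congr 2
    ring
  have h6 : volume.real (⋃ x ∈ X, (ball x 2 ∩ {z : EuclideanSpace ℝ (Fin n) |
        total c B β k (α / √n) u F z.ofLp ≤ η * F.card / 2})) ≤
      X.card * (gc n * Real.exp (-(η ^ 2 * F.card / 16))) := by
    refine (measureReal_biUnion_finset_le _ _).trans ?_
    refine (Finset.sum_le_sum h4).trans (le_of_eq ?_)
    rw [Finset.sum_const, nsmul_eq_mul]
  have h7 : Real.exp (-(η / 4) * (η * F.card / 2) + (η / 4) ^ 2 * F.card) =
      Real.exp (-(η ^ 2 * F.card / 16)) := by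
    congr 1
    ring
  rw [h7] at h3
  calc _ ≤ Real.exp (-(η ^ 2 * F.card / 16)) *
        volume.real (ball (0 : EuclideanSpace ℝ (Fin n)) (T + 2 + α)) +
        X.card * (gc n * Real.exp (-(η ^ 2 * F.card / 16))) := add_le_add h3 h6
    _ = _ := by ring

/-- **The alternative.** -/
theorem alternative (hK : Ker τ s k c b B β) {α : ℝ} (hα : 0 < α) (hn : 0 < n) (hs : 2 / α = s)
    (u : Fin n → ℝ) {F : Finset (Finset (Fin n))}
    (hF : (F : Set (Finset (Fin n))).PairwiseDisjoint id) (hFk : ∀ S ∈ F, S.card ≤ k)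
    {X : Set (EuclideanSpace ℝ (Fin n))} (hX : IsPacking X 1)
    (hx : ∀ x ∈ X, ∀ S ∈ F, ∃ i ∈ S, τ ≤ Int.fract ((x i - u i) / (α / √n)))
    {η : ℝ} (hη : η = β ^ k / (2 * (1 + B ^ k))) :
    upperDensity X 1 ≤ 2 * (rho n * Real.exp (-(η ^ 2 * F.card / 16))) ∨
      vb (EuclideanSpace ℝ (Fin n)) / (2 * gc n) ≤ rho n * Real.exp (-(η ^ 2 * F.card / 16)) := by
  have : NeZero n := ⟨hn.ne'⟩
  have hv := vb_pos (E := EuclideanSpace ℝ (Fin n))
  have hg := gc_pos hn
  set q : ℝ := Real.exp (-(η ^ 2 * F.card / 16)) with hq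
  have hq0 : 0 < q := Real.exp_pos _
  have hρ : 0 ≤ rho n := optDensity_nonneg
  set v : ℝ := vb (EuclideanSpace ℝ (Fin n)) with hvdef
  -- the counting inequality
  have key : ∀ R : ℝ, 0 < R → ((finite_inter hX (R + 1)).toFinset.card : ℝ) * v ≤
      rho n * q * ((R + (3 + α)) ^ n * v + (finite_inter hX (R + 1)).toFinset.card * gc n) := by
    intro R hR
    set P := (finite_inter hX (R + 1)).toFinset with hP
    have hPX : ∀ x ∈ P, x ∈ X ∧ ‖x‖ ≤ R + 1 := by
      intro x hx
      simp only [hP, Finite.mem_toFinset, mem_inter_iff, mem_closedBall_zero_iff] at hx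
      exact hx
    rcases P.eq_empty_or_nonempty with h0 | hne
    · rw [h0]
      simp only [Finset.card_empty, Nat.cast_zero, zero_mul, add_zero]
      positivity
    · have hsep : Sep 2 P := fun x hx y hy hxy => sep_of_packing hX (hPX x hx).1 (hPX y hy).1 hxy
      have h1 := replaceU hsep hne
      have h2 := vol_nbhd hK hα hn hs u hF hFk P (fun x hxP => hx x (hPX x hxP).1)
        (T := R + 1) (fun x hxP => (hPX x hxP).2) hη
      rw [← hq, vol_ball 0 (by linarith), finrank_euclideanSpace_fin] at h2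
      have h3 : R + 1 + 2 + α = R + (3 + α) := by ring
      rw [h3] at h2
      calc (P.card : ℝ) * v ≤ rho n * volume.real (nbhd P) := h1
        _ ≤ rho n * (q * ((R + (3 + α)) ^ n * v + P.card * gc n)) :=
            mul_le_mul_of_nonneg_left h2 hρ
        _ = _ := by ring
  rcases le_total (rho n * q * gc n) (v / 2) with hcase | hcase
  · left
    have h1 : ∀ᶠ R : ℝ in atTop,
        volume.real (ball (0 : EuclideanSpace ℝ (Fin n)) R ∩ body X 1) /
          volume.real (ball (0 : EuclideanSpace ℝ (Fin n)) R) ≤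
        2 * (rho n * q) * ((R + (3 + α)) / R) ^ n := by
      filter_upwards [eventually_gt_atTop 0] with R hR
      have h2 := body_le hX R
      have h3 := key R hR
      set N : ℝ := ((finite_inter hX (R + 1)).toFinset.card : ℝ) with hN
      have hN0 : 0 ≤ N := Nat.cast_nonneg _
      have h4 : N * v ≤ 2 * (rho n * q) * ((R + (3 + α)) ^ n * v) := by
        have h5 : rho n * q * (N * gc n) ≤ N * (v / 2) := by
          calc rho n * q * (N * gc n) = N * (rho n * q * gc n) := by ring
            _ ≤ N * (v / 2) := mul_le_mul_of_nonneg_left hcase hN0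
        have h6 : rho n * q * ((R + (3 + α)) ^ n * v + N * gc n) =
            rho n * q * ((R + (3 + α)) ^ n * v) + rho n * q * (N * gc n) := by ring
        rw [h6] at h3
        linarith
      rw [vol_ball 0 hR, finrank_euclideanSpace_fin, ← hvdef, div_le_iff₀ (by positivity)]
      calc _ ≤ N * v := h2
        _ ≤ 2 * (rho n * q) * ((R + (3 + α)) ^ n * v) := h4
        _ = _ := by
          rw [div_pow]
          field_simp
    have h5 : Tendsto (fun R : ℝ => 2 * (rho n * q) * ((R + (3 + α)) / R) ^ n) atTop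
        (𝓝 (2 * (rho n * q) * 1 ^ n)) := by
      apply Tendsto.const_mul
      apply Tendsto.pow
      have h6 : Tendsto (fun R : ℝ => 1 + (3 + α) / R) atTop (𝓝 (1 + 0)) :=
        tendsto_const_nhds.add (tendsto_const_nhds.div_atTop tendsto_id)
      rw [add_zero] at h6
      refine h6.congr' ?_
      filter_upwards [eventually_gt_atTop 0] with R hR
      field_simp
    rw [one_pow, mul_one] at h5
    calc upperDensity X 1 ≤ limsup (fun R : ℝ => 2 * (rho n * q) * ((R + (3 + α)) / R) ^ n) atTop :=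
          limsup_le_limsup h1 (ratio_cobdd X 1) h5.isBoundedUnder_le
      _ = _ := h5.limsup_eq
  · right
    rw [div_le_iff₀ (by positivity)]
    linarith

end Run7.h748.Sph
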