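import Mathlib

/-! A bounded periodic function whose Gaussian average is concentrated on an interval. -/

set_option autoImplicit false

open MeasureTheory ProbabilityTheory Filter Topology

namespace Run7.h748.Sph

/-- `b` is the average of the bounded continuous periodic function `c` over Gaussian noise with
standard deviation `s`, and has the same mean over a period. -/
def Avg (s : ℝ) (b : ℝ → ℝ) : Prop :=
  ∃ c : ℝ → ℝ, Continuous c ∧ Function.Periodic c 1 ∧ (∃ B : ℝ, ∀ y, |c y| ≤ B) ∧
    (∀ y, ∫ x, c (y + s * x) ∂(gaussianReal 0 1) = b y) ∧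
    ∫ y in (0 : ℝ)..1, c y = ∫ y in (0 : ℝ)..1, b y

lemma integrable_avg {c : ℝ → ℝ} (hc : Continuous c) {B : ℝ} (hB : ∀ y, |c y| ≤ B) (s y : ℝ) :
    Integrable (fun x => c (y + s * x)) (gaussianReal 0 1) := by
  refine Integrable.mono' (integrable_const B) (by fun_prop) ?_
  filter_upwards with x
  exact hB _

lemma Avg.continuous {s : ℝ} {b : ℝ → ℝ} (h : Avg s b) : Continuous b := by
  obtain ⟨c, hc, -, ⟨B, hB⟩, hav, -⟩ := h
  have : b = fun y => ∫ x, c (y + s * x) ∂(gaussianReal 0 1) := funext fun y => (hav y).symm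
  rw [this]
  refine continuous_of_dominated (bound := fun _ => B) ?_ ?_ (integrable_const B) ?_
  · intro y
    exact (integrable_avg hc hB s y).aestronglyMeasurable
  · intro y
    filter_upwards with x
    exact hB _
  · filter_upwards with x
    fun_prop

lemma Avg.add {s : ℝ} {b b' : ℝ → ℝ} (h : Avg s b) (h' : Avg s b') :
    Avg s (fun y => b y + b' y) := by
  have hcb := h.continuous
  have hcb' := h'.continuous
  obtain ⟨c, hc, hp, ⟨B, hB⟩, hav, hm⟩ := h
  obtain ⟨c', hc', hp', ⟨B', hB'⟩, hav', hm'⟩ := h'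
  refine ⟨fun y => c y + c' y, hc.add hc', ?_, ⟨B + B', fun y => ?_⟩, fun y => ?_, ?_⟩
  · intro y
    show c (y + 1) + c' (y + 1) = c y + c' y
    rw [hp y, hp' y]
  · exact (abs_add_le _ _).trans (add_le_add (hB y) (hB' y))
  · rw [integral_add (integrable_avg hc hB s y) (integrable_avg hc' hB' s y), hav, hav']
  · rw [intervalIntegral.integral_add (hc.intervalIntegrable _ _) (hc'.intervalIntegrable _ _),
      intervalIntegral.integral_add (hcb.intervalIntegrable _ _) (hcb'.intervalIntegrable _ _),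
      hm, hm']

lemma Avg.smul {s : ℝ} {b : ℝ → ℝ} (h : Avg s b) (a : ℝ) : Avg s (fun y => a * b y) := by
  obtain ⟨c, hc, hp, ⟨B, hB⟩, hav, hm⟩ := h
  refine ⟨fun y => a * c y, hc.const_mul a, ?_, ⟨|a| * B, fun y => ?_⟩, fun y => ?_, ?_⟩
  · intro y
    show a * c (y + 1) = a * c y
    rw [hp y]
  · rw [abs_mul]
    exact mul_le_mul_of_nonneg_left (hB y) (abs_nonneg a)
  · rw [integral_const_mul, hav]
  · rw [intervalIntegral.integral_const_mul, intervalIntegral.integral_const_mul, hm]

lemma gauss_cos (t : ℝ) : ∫ x, Real.cos (t * x) ∂(gaussianReal 0 1) = Real.exp (-(t ^ 2 / 2)) ∧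
    ∫ x, Real.sin (t * x) ∂(gaussianReal 0 1) = 0 := by
  have h := charFun_gaussianReal (μ := 0) (v := 1) t
  rw [charFun_apply_real] at h
  have hint : Integrable (fun x : ℝ => Complex.exp (t * x * Complex.I)) (gaussianReal 0 1) := by
    refine Integrable.mono' (integrable_const (1 : ℝ)) (by fun_prop) ?_
    filter_upwards with x
    rw [show (t : ℂ) * x * Complex.I = ((t * x : ℝ) : ℂ) * Complex.I by push_cast; ring,
      Complex.norm_exp_ofReal_mul_I]
  have hrhs : Complex.exp (t * (0 : ℝ) * Complex.I - (1 : NNReal) * t ^ 2 / 2) =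
      ((Real.exp (-(t ^ 2 / 2)) : ℝ) : ℂ) := by
    push_cast
    congr 1
    ring
  have h' : ∫ x : ℝ, Complex.exp (t * x * Complex.I) ∂(gaussianReal 0 1) =
      ((Real.exp (-(t ^ 2 / 2)) : ℝ) : ℂ) := by
    rw [← hrhs]
    exact_mod_cast h
  have e1 : ∀ x : ℝ, (Complex.exp (t * x * Complex.I)).re = Real.cos (t * x) := by
    intro x
    rw [show (t : ℂ) * x * Complex.I = ((t * x : ℝ) : ℂ) * Complex.I by push_cast; ring,
      Complex.exp_ofReal_mul_I_re]
  have e2 : ∀ x : ℝ, (Complex.exp (t * x * Complex.I)).im = Real.sin (t * x) := by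
    intro x
    rw [show (t : ℂ) * x * Complex.I = ((t * x : ℝ) : ℂ) * Complex.I by push_cast; ring,
      Complex.exp_ofReal_mul_I_im]
  constructor
  · have h1 := congrArg Complex.re h'
    rw [Complex.ofReal_re] at h1
    rw [← h1]
    have h2 := integral_re hint
    simp only [RCLike.re_to_complex] at h2
    rw [← h2]
    exact integral_congr_ae (Filter.Eventually.of_forall fun x => (e1 x).symm)
  · have h1 := congrArg Complex.im h'
    rw [Complex.ofReal_im] at h1
    have h2 := integral_im hint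
    simp only [RCLike.im_to_complex] at h2
    rw [h1] at h2
    refine Eq.trans ?_ h2
    exact integral_congr_ae (Filter.Eventually.of_forall fun x => (e2 x).symm)

/-- the cosines -/
lemma avg_cos (s : ℝ) (j : ℤ) : Avg s (fun y => Real.cos (2 * Real.pi * j * y)) := by
  set E : ℝ := Real.exp (-((2 * Real.pi * j * s) ^ 2 / 2)) with hE
  have hE0 : 0 < E := Real.exp_pos _
  refine ⟨fun y => E⁻¹ * Real.cos (2 * Real.pi * j * y), by fun_prop, ?_, ⟨E⁻¹, fun y => ?_⟩,
    fun y => ?_, ?_⟩
  · intro y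
    show E⁻¹ * Real.cos (2 * Real.pi * j * (y + 1)) = E⁻¹ * Real.cos (2 * Real.pi * j * y)
    congr 1
    rw [show 2 * Real.pi * j * (y + 1) = 2 * Real.pi * j * y + j * (2 * Real.pi) by ring,
      Real.cos_add_int_mul_two_pi]
  · rw [abs_mul, abs_of_pos (inv_pos.2 hE0)]
    have := Real.abs_cos_le_one (2 * Real.pi * j * y)
    have h := inv_pos.2 hE0
    nlinarith
  · have h1 : ∀ x : ℝ, E⁻¹ * Real.cos (2 * Real.pi * j * (y + s * x)) =
        E⁻¹ * Real.cos (2 * Real.pi * j * y) * Real.cos (2 * Real.pi * j * s * x) +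
        (-(E⁻¹ * Real.sin (2 * Real.pi * j * y))) * Real.sin (2 * Real.pi * j * s * x) := by
      intro x
      rw [show 2 * Real.pi * j * (y + s * x) = 2 * Real.pi * j * y + 2 * Real.pi * j * s * x by ring,
        Real.cos_add]
      ring
    simp_rw [h1]
    have hi1 : Integrable (fun x : ℝ => Real.cos (2 * Real.pi * j * s * x)) (gaussianReal 0 1) := by
      refine Integrable.mono' (integrable_const (1 : ℝ)) (by fun_prop) ?_
      filter_upwards with x
      exact Real.abs_cos_le_one _
    have hi2 : Integrable (fun x : ℝ => Real.sin (2 * Real.pi * j * s * x)) (gaussianReal 0 1) := by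
      refine Integrable.mono' (integrable_const (1 : ℝ)) (by fun_prop) ?_
      filter_upwards with x
      exact Real.abs_sin_le_one _
    rw [integral_add (hi1.const_mul _) (hi2.const_mul _), integral_const_mul, integral_const_mul,
      (gauss_cos _).1, (gauss_cos _).2, ← hE]
    field_simp
    ring
  · rw [intervalIntegral.integral_const_mul]
    rcases eq_or_ne j 0 with rfl | hj
    · simp [hE]
    · have h0 : ∫ y in (0 : ℝ)..1, Real.cos (2 * Real.pi * j * y) = 0 := by
        have hne : 2 * Real.pi * (j : ℝ) ≠ 0 := by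
          have : (j : ℝ) ≠ 0 := by exact_mod_cast hj
          positivity
        rw [intervalIntegral.integral_comp_mul_left (fun y => Real.cos y) hne, integral_cos]
        simp only [mul_one, mul_zero, Real.sin_zero, sub_zero, smul_eq_mul]
        rw [show 2 * Real.pi * (j : ℝ) = (2 * j : ℤ) * Real.pi by push_cast; ring,
          Real.sin_int_mul_pi, mul_zero]
      rw [h0, mul_zero]

lemma avg_bump_cos (s : ℝ) (N : ℕ) : ∀ j : ℤ,
    Avg s (fun y => Real.cos (2 * Real.pi * j * y) * ((1 + Real.cos (2 * Real.pi * y)) / 2) ^ N) := by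
  induction N with
  | zero =>
    intro j
    simpa using avg_cos s j
  | succ N ih =>
    intro j
    have h := (((ih j).smul (1 / 2)).add ((ih (j + 1)).smul (1 / 4))).add ((ih (j - 1)).smul (1 / 4))
    convert h using 2 with y
    rw [pow_succ]
    push_cast
    rw [show 2 * Real.pi * ((j : ℝ) + 1) * y = 2 * Real.pi * j * y + 2 * Real.pi * y by ring,
      show 2 * Real.pi * ((j : ℝ) - 1) * y = 2 * Real.pi * j * y - 2 * Real.pi * y by ring,
      Real.cos_add, Real.cos_sub]
    ring

/-- the bump -/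
noncomputable def bump (N : ℕ) (y : ℝ) : ℝ := ((1 + Real.cos (2 * Real.pi * y)) / 2) ^ N

lemma avg_bump (s : ℝ) (N : ℕ) : Avg s (bump N) := by
  have := avg_bump_cos s N 0
  have e : bump N = fun y => Real.cos (2 * Real.pi * (0 : ℤ) * y) *
      ((1 + Real.cos (2 * Real.pi * y)) / 2) ^ N := by
    funext y
    simp [bump]
  rw [e]
  exact this

lemma bump_nonneg (N : ℕ) (y : ℝ) : 0 ≤ bump N y := by
  unfold bump
  have := Real.neg_one_le_cos (2 * Real.pi * y)
  exact pow_nonneg (by linarith) N

lemma bump_le_one (N : ℕ) (y : ℝ) : bump N y ≤ 1 := by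
  unfold bump
  have h1 := Real.neg_one_le_cos (2 * Real.pi * y)
  have h2 := Real.cos_le_one (2 * Real.pi * y)
  exact pow_le_one₀ (by linarith) (by linarith)

lemma bump_periodic (N : ℕ) : Function.Periodic (bump N) 1 := by
  intro y
  unfold bump
  rw [show 2 * Real.pi * (y + 1) = 2 * Real.pi * y + 2 * Real.pi by ring, Real.cos_add_two_pi]

lemma bump_cont (N : ℕ) : Continuous (bump N) := by
  unfold bump
  fun_prop

/-- outside of the interval the bump is small -/
lemma bump_small {τ : ℝ} (h0 : 0 < τ) (h1 : τ ≤ 1) (N : ℕ) {y : ℝ} (hy : τ ≤ Int.fract y) :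
    bump N (y - τ / 2) ≤ ((1 + Real.cos (Real.pi * τ)) / 2) ^ N := by
  have hper : bump N (y - τ / 2) = bump N (Int.fract y - τ / 2) := by
    have : y - τ / 2 = (Int.fract y - τ / 2) + (⌊y⌋ : ℤ) := by
      rw [Int.fract]
      ring
    rw [this]
    have h := (bump_periodic N).int_mul ⌊y⌋
    have h2 := h (Int.fract y - τ / 2)
    rw [mul_one] at h2
    exact h2
  rw [hper]
  set z := Int.fract y - τ / 2 with hz
  have hz0 : τ / 2 ≤ z := by rw [hz]; linarith
  have hz1 : z ≤ 1 - τ / 2 := by
    have := (Int.fract_lt_one y).le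
    rw [hz]
    linarith
  unfold bump
  have hcos : Real.cos (2 * Real.pi * z) ≤ Real.cos (Real.pi * τ) := by
    have hpi := Real.pi_pos
    rcases le_total z (1 / 2) with h | h
    · apply Real.cos_le_cos_of_nonneg_of_le_pi
      · positivity
      · nlinarith
      · nlinarith
    · have e : Real.cos (2 * Real.pi * z) = Real.cos (2 * Real.pi - 2 * Real.pi * z) := by
        rw [Real.cos_two_pi_sub]
      rw [e]
      apply Real.cos_le_cos_of_nonneg_of_le_pi
      · positivity
      · nlinarith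
      · nlinarith
  have h3 := Real.neg_one_le_cos (2 * Real.pi * z)
  apply pow_le_pow_left₀ (by linarith)
  linarith

lemma bump_mean_lower {r : ℝ} (h0 : 0 < r) (h1 : r ≤ 1 / 2) (N : ℕ) :
    r * ((1 + Real.cos (2 * Real.pi * r)) / 2) ^ N ≤ ∫ y in (0 : ℝ)..1, bump N y := by
  have hpi := Real.pi_pos
  have h2 : ∫ y in (0 : ℝ)..r, ((1 + Real.cos (2 * Real.pi * r)) / 2) ^ N ≤
      ∫ y in (0 : ℝ)..r, bump N y := by
    apply intervalIntegral.integral_mono_on h0.le
    · exact intervalIntegrable_const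
    · exact (bump_cont N).intervalIntegrable _ _
    · intro y hy
      unfold bump
      have hcos : Real.cos (2 * Real.pi * r) ≤ Real.cos (2 * Real.pi * y) := by
        apply Real.cos_le_cos_of_nonneg_of_le_pi
        · have := hy.1
          positivity
        · nlinarith
        · have := hy.2
          nlinarith
      have h3 := Real.neg_one_le_cos (2 * Real.pi * r)
      apply pow_le_pow_left₀ (by linarith)
      linarith
  rw [intervalIntegral.integral_const, sub_zero, smul_eq_mul] at h2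
  refine h2.trans ?_
  rw [← intervalIntegral.integral_add_adjacent_intervals (a := 0) (b := r) (c := 1)
    ((bump_cont N).intervalIntegrable _ _) ((bump_cont N).intervalIntegrable _ _)]
  have : 0 ≤ ∫ y in r..1, bump N y :=
    intervalIntegral.integral_nonneg (by linarith) fun y _ => bump_nonneg N y
  linarith

/-- **The kernel.** -/
theorem exists_kernel {τ : ℝ} (h0 : 0 < τ) (h1 : τ ≤ 1) (s : ℝ) (k : ℕ) :
    ∃ (c b : ℝ → ℝ) (B β : ℝ), Continuous c ∧ Function.Periodic c 1 ∧ 1 ≤ B ∧ (∀ y, |c y| ≤ B) ∧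
      (∀ y, ∫ x, c (y + s * x) ∂(gaussianReal 0 1) = b y) ∧ (∫ y in (0 : ℝ)..1, c y) = β ∧
      0 < β ∧ β ≤ 1 ∧ (∀ y, |b y| ≤ 1) ∧ ∀ y, τ ≤ Int.fract y → |b y| ≤ β ^ k / 2 := by
  have hpi := Real.pi_pos
  set q : ℝ := (1 + Real.cos (Real.pi * τ)) / 2 with hq
  have hq0 : 0 ≤ q := by
    have := Real.neg_one_le_cos (Real.pi * τ)
    rw [hq]
    linarith
  have hq1 : q < 1 := by
    have : Real.cos (Real.pi * τ) < 1 := by
      have := Real.cos_lt_cos_of_nonneg_of_le_pi (x := 0) (y := Real.pi * τ) le_rfl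
        (by nlinarith) (by positivity)
      rwa [Real.cos_zero] at this
    rw [hq]
    linarith
  -- choose `r`
  have hcont : Tendsto (fun r : ℝ => ((1 + Real.cos (2 * Real.pi * r)) / 2) ^ k) (𝓝[>] 0) (𝓝 1) := by
    have hc : Continuous (fun r : ℝ => ((1 + Real.cos (2 * Real.pi * r)) / 2) ^ k) := by fun_prop
    have := (hc.tendsto 0).mono_left (nhdsWithin_le_nhds (s := Set.Ioi (0 : ℝ)))
    simpa using this
  obtain ⟨r, hr, hr0, hr1⟩ : ∃ r : ℝ, q < ((1 + Real.cos (2 * Real.pi * r)) / 2) ^ k ∧ 0 < r ∧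
      r ≤ 1 / 2 := by
    have e1 := hcont.eventually (eventually_gt_nhds hq1)
    have e2 : ∀ᶠ r : ℝ in 𝓝[>] 0, r ∈ Set.Ioc (0 : ℝ) (1 / 2) :=
      Ioc_mem_nhdsGT (by norm_num)
    obtain ⟨r, h1, h2⟩ := (e1.and e2).exists
    exact ⟨r, h1, h2.1, h2.2⟩
  set p : ℝ := ((1 + Real.cos (2 * Real.pi * r)) / 2) ^ k with hp
  have hp0 : 0 < p := lt_of_le_of_lt hq0 hr
  -- choose `N`
  obtain ⟨N, hN⟩ : ∃ N : ℕ, q ^ N ≤ r ^ k / 2 * p ^ N := by
    have ht : Tendsto (fun N : ℕ => (q / p) ^ N) atTop (𝓝 0) :=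
      tendsto_pow_atTop_nhds_zero_of_lt_one (div_nonneg hq0 hp0.le) ((div_lt_one hp0).2 hr)
    obtain ⟨N, hN⟩ := (ht.eventually (eventually_le_nhds (b := r ^ k / 2) (by positivity))).exists
    refine ⟨N, ?_⟩
    rw [div_pow, div_le_iff₀ (by positivity)] at hN
    exact hN
  obtain ⟨c, hc, hper, ⟨B, hB⟩, hav, hm⟩ := avg_bump s N
  set β : ℝ := ∫ y in (0 : ℝ)..1, bump N y with hβ
  have hβr : r * ((1 + Real.cos (2 * Real.pi * r)) / 2) ^ N ≤ β := bump_mean_lower hr0 hr1 N
  have hcosr : 0 ≤ (1 + Real.cos (2 * Real.pi * r)) / 2 := by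
    have := Real.neg_one_le_cos (2 * Real.pi * r)
    linarith
  have hβ1 : β ≤ 1 := by
    have : β ≤ ∫ y in (0 : ℝ)..1, (1 : ℝ) := by
      apply intervalIntegral.integral_mono_on (by norm_num)
      · exact (bump_cont N).intervalIntegrable _ _
      · exact intervalIntegrable_const
      · intro y _
        exact bump_le_one N y
    simpa using this
  have hβk : q ^ N ≤ β ^ k / 2 := by
    have h5 : (r * ((1 + Real.cos (2 * Real.pi * r)) / 2) ^ N) ^ k ≤ β ^ k :=
      pow_le_pow_left₀ (by positivity) hβr k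
    have h6 : (r * ((1 + Real.cos (2 * Real.pi * r)) / 2) ^ N) ^ k = r ^ k * p ^ N := by
      rw [mul_pow, hp, ← pow_mul, ← pow_mul, mul_comm N k]
    rw [h6] at h5
    linarith
  have hβ0 : 0 < β := by
    have hN' : 0 ≤ q ^ N := pow_nonneg hq0 N
    rcases lt_or_ge 0 β with h | h
    · exact h
    · exfalso
      have h7 : r * ((1 + Real.cos (2 * Real.pi * r)) / 2) ^ N ≤ 0 := hβr.trans h
      have h8 : ((1 + Real.cos (2 * Real.pi * r)) / 2) ^ N ≤ 0 := by
        by_contra hcon
        push Not at hcon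
        have := mul_pos hr0 hcon
        linarith
      have h9 : (1 + Real.cos (2 * Real.pi * r)) / 2 ≤ 0 := by
        by_contra hcon
        push Not at hcon
        have := pow_pos hcon N
        linarith
      have h10 : (1 + Real.cos (2 * Real.pi * r)) / 2 = 0 := le_antisymm h9 hcosr
      rcases Nat.eq_zero_or_pos N with hN0 | hN0
      · rw [hN0] at h8
        norm_num at h8
      · rcases Nat.eq_zero_or_pos k with hk0 | hk0
        · -- then `β` is the mean of a nonnegative function, positive by continuity at `0`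
          have hpos : 0 < ∫ y in (0 : ℝ)..1, bump N y := by
            apply intervalIntegral.integral_pos (by norm_num)
              (bump_cont N).continuousOn (fun y _ => bump_nonneg N y)
            exact ⟨0, ⟨le_rfl, zero_le_one⟩, by simp [bump]⟩
          linarith
        · rw [hp, h10, zero_pow hk0.ne'] at hp0
          exact lt_irrefl _ hp0
  refine ⟨fun y => c (y - τ / 2), fun y => bump N (y - τ / 2), max B 1, β, by fun_prop, ?_,
    le_max_right _ _, fun y => (hB _).trans (le_max_left _ _), ?_, ?_, hβ0, hβ1, ?_, ?_⟩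
  · intro y
    show c (y + 1 - τ / 2) = c (y - τ / 2)
    rw [show y + 1 - τ / 2 = (y - τ / 2) + 1 by ring, hper]
  · intro y
    show ∫ x, c (y + s * x - τ / 2) ∂(gaussianReal 0 1) = bump N (y - τ / 2)
    rw [← hav (y - τ / 2)]
    congr 1
    funext x
    congr 1
    ring
  · rw [← hm]
    have h11 : ∫ y in (0 : ℝ)..1, c (y - τ / 2) = ∫ y in (0 - τ / 2)..(1 - τ / 2), c y :=
      intervalIntegral.integral_comp_sub_right c (τ / 2)
    rw [h11]
    have h12 := hper.intervalIntegral_add_eq (0 - τ / 2) 0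
    rw [show (0 : ℝ) - τ / 2 + 1 = 1 - τ / 2 by ring, zero_add] at h12
    exact h12
  · intro y
    rw [abs_of_nonneg (bump_nonneg N _)]
    exact bump_le_one N _
  · intro y hy
    rw [abs_of_nonneg (bump_nonneg N _)]
    exact (bump_small h0 h1 N hy).trans hβk

end Run7.h748.Sph
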