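import Pool.Agent.Run7.h748.Sph.Blocks
import Pool.Agent.Run7.h748.Sph.Kernel
import Pool.Agent.H992R2.Gauss

/-! Tail bounds for the sum of the cell functions, under uniform shifts and Gaussian noise. -/

set_option autoImplicit false

open MeasureTheory ProbabilityTheory Metric Set
open scoped NNReal ENNReal

namespace Run7.h748.Sph

/-- The properties of the kernel. -/
structure Ker (τ s : ℝ) (k : ℕ) (c b : ℝ → ℝ) (B β : ℝ) : Prop where
  cont : Continuous c
  per : Function.Periodic c 1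
  one_le : 1 ≤ B
  abs_le : ∀ y, |c y| ≤ B
  avg : ∀ y, ∫ x, c (y + s * x) ∂(gaussianReal 0 1) = b y
  mean : ∫ y in (0 : ℝ)..1, c y = β
  pos : 0 < β
  le_one : β ≤ 1
  b_abs : ∀ y, |b y| ≤ 1
  b_small : ∀ y, τ ≤ Int.fract y → |b y| ≤ β ^ k / 2

lemma exists_ker {τ : ℝ} (h0 : 0 < τ) (h1 : τ ≤ 1) (s : ℝ) (k : ℕ) :
    ∃ (c b : ℝ → ℝ) (B β : ℝ), Ker τ s k c b B β := by
  obtain ⟨c, b, B, β, h1, h2, h3, h4, h5, h6, h7, h8, h9, h10⟩ := exists_kernel h0 h1 s k
  exact ⟨c, b, B, β, h1, h2, h3, h4, h5, h6, h7, h8, h9, h10⟩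

variable {n : ℕ}

/-- the function of one cell -/
noncomputable def cell (c : ℝ → ℝ) (B β : ℝ) (k : ℕ) (a : ℝ) (u : Fin n → ℝ)
    (S : Finset (Fin n)) (v : Fin n → ℝ) : ℝ :=
  (β ^ S.card - ∏ i ∈ S, c ((v i - u i) / a)) / (1 + B ^ k)

/-- the sum over all cells -/
noncomputable def total (c : ℝ → ℝ) (B β : ℝ) (k : ℕ) (a : ℝ) (u : Fin n → ℝ)
    (F : Finset (Finset (Fin n))) (v : Fin n → ℝ) : ℝ :=
  ∑ S ∈ F, cell c B β k a u S v

section
variable {τ s : ℝ} {k : ℕ} {c b : ℝ → ℝ} {B β : ℝ} (hK : Ker τ s k c b B β)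
include hK

lemma cell_abs {a : ℝ} {u : Fin n → ℝ} {S : Finset (Fin n)} (hS : S.card ≤ k) (v : Fin n → ℝ) :
    |cell c B β k a u S v| ≤ 1 := by
  have hB := hK.one_le
  have h0 : (0 : ℝ) < 1 + B ^ k := by positivity
  unfold cell
  rw [abs_div, abs_of_pos h0, div_le_one h0]
  refine (abs_sub _ _).trans ?_
  apply add_le_add
  · rw [abs_of_nonneg (pow_nonneg hK.pos.le _)]
    exact pow_le_one₀ hK.pos.le hK.le_one
  · rw [Finset.abs_prod]
    calc ∏ i ∈ S, |c ((v i - u i) / a)| ≤ ∏ _i ∈ S, B :=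
          Finset.prod_le_prod (fun i _ => abs_nonneg _) fun i _ => hK.abs_le _
      _ = B ^ S.card := by rw [Finset.prod_const]
      _ ≤ B ^ k := pow_le_pow_right₀ hB hS

lemma cell_cont (a : ℝ) (u : Fin n → ℝ) (S : Finset (Fin n)) : Continuous (cell c B β k a u S) := by
  unfold cell
  have := hK.cont
  fun_prop

lemma total_cont (a : ℝ) (u : Fin n → ℝ) (F : Finset (Finset (Fin n))) :
    Continuous (total c B β k a u F) := by
  unfold total
  exact continuous_finsetSum _ fun S _ => cell_cont hK a u S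

lemma cell_dep (a : ℝ) (u : Fin n → ℝ) (S : Finset (Fin n)) (e : ℝ) (v : Fin n → ℝ) :
    Dep S (fun w => cell c B β k a u S (fun i => v i + e * w i)) := by
  refine ⟨fun y => (β ^ S.card - ∏ i : S, c ((v i + e * y i - u i) / a)) / (1 + B ^ k), ?_, ?_⟩
  · apply Continuous.measurable
    have := hK.cont
    fun_prop
  · intro w
    show (β ^ S.card - ∏ i ∈ S, c ((v i + e * w i - u i) / a)) / (1 + B ^ k) =
      (β ^ S.card - ∏ i : S, c ((v i + e * w i - u i) / a)) / (1 + B ^ k)
    rw [Finset.univ_eq_attach, Finset.prod_attach S (fun i => c ((v i + e * w i - u i) / a))]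

/-- the mean of the cell function under a product measure -/
lemma int_cell (μ : Fin n → Measure ℝ) [∀ i, IsProbabilityMeasure (μ i)] (a : ℝ) (u : Fin n → ℝ)
    (S : Finset (Fin n)) (e : ℝ) (v : Fin n → ℝ) :
    ∫ w, cell c B β k a u S (fun i => v i + e * w i) ∂(Measure.pi μ) =
      (β ^ S.card - ∏ i ∈ S, ∫ x, c ((v i + e * x - u i) / a) ∂(μ i)) / (1 + B ^ k) := by
  classical
  have hc := hK.cont
  have h1 : ∫ w : Fin n → ℝ, ∏ i ∈ S, c ((v i + e * w i - u i) / a) ∂(Measure.pi μ) =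
      ∏ i ∈ S, ∫ x, c ((v i + e * x - u i) / a) ∂(μ i) := by
    have h2 := integral_fintype_prod_eq_prod (μ := μ) (𝕜 := ℝ)
      (fun (i : Fin n) (x : ℝ) => if i ∈ S then c ((v i + e * x - u i) / a) else 1)
    have h3 : ∀ w : Fin n → ℝ, ∏ i ∈ S, c ((v i + e * w i - u i) / a) =
        ∏ i, if i ∈ S then c ((v i + e * w i - u i) / a) else 1 := by
      intro w
      rw [Finset.prod_ite_mem, Finset.univ_inter]
    simp_rw [h3]
    rw [h2]
    have h4 : ∀ i : Fin n, (∫ x, (if i ∈ S then c ((v i + e * x - u i) / a) else 1) ∂(μ i)) =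
        if i ∈ S then ∫ x, c ((v i + e * x - u i) / a) ∂(μ i) else 1 := by
      intro i
      by_cases hi : i ∈ S
      · simp only [hi, if_true]
      · simp [hi]
    simp_rw [h4]
    rw [Finset.prod_ite_mem, Finset.univ_inter]
  unfold cell
  rw [integral_div, integral_sub, h1]
  · simp
  · exact integrable_const _
  · refine Integrable.mono' (integrable_const (B ^ S.card))
      (Continuous.aestronglyMeasurable (by fun_prop)) ?_
    filter_upwards with w
    rw [Real.norm_eq_abs, Finset.abs_prod]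
    calc ∏ i ∈ S, |c ((v i + e * w i - u i) / a)| ≤ ∏ _i ∈ S, B :=
          Finset.prod_le_prod (fun i _ => abs_nonneg _) fun i _ => hK.abs_le _
      _ = B ^ S.card := by rw [Finset.prod_const]

/-- the unit interval with its uniform measure -/
lemma int_unif {a : ℝ} (ha : 0 < a) (y z : ℝ) :
    ∫ x, c ((y + a * x - z) / a) ∂((volume : Measure ℝ).restrict (Ioc 0 1)) = β := by
  rw [← intervalIntegral.integral_of_le zero_le_one]
  have h1 : ∀ x : ℝ, c ((y + a * x - z) / a) = c ((y - z) / a + x) := by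
    intro x
    congr 1
    field_simp
    ring
  simp_rw [h1]
  rw [intervalIntegral.integral_comp_add_left (fun x => c x) ((y - z) / a), add_zero]
  have h2 := hK.per.intervalIntegral_add_eq ((y - z) / a) 0
  rw [h2, zero_add]
  exact hK.mean

lemma int_gauss {a : ℝ} {v : ℝ≥0} {σ : ℝ} (hσ : σ ^ 2 = v) (hs : σ / a = s)
    (y z : ℝ) : ∫ x, c ((y + 1 * x - z) / a) ∂(gaussianReal 0 v) = b ((y - z) / a) := by
  rw [← hK.avg ((y - z) / a)]
  have h1 : gaussianReal 0 v = (gaussianReal 0 1).map (σ * ·) := by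
    rw [gaussianReal_map_const_mul, mul_zero, mul_one]
    congr 1
    apply NNReal.eq
    exact hσ.symm
  rw [h1, integral_map (by fun_prop)]
  · congr 1
    funext x
    congr 1
    rw [← hs]
    ring
  · have := hK.cont
    fun_prop

lemma total_abs {a : ℝ} {u : Fin n → ℝ} {F : Finset (Finset (Fin n))}
    (hFk : ∀ S ∈ F, S.card ≤ k) (v : Fin n → ℝ) : |total c B β k a u F v| ≤ F.card := by
  unfold total
  refine (Finset.abs_sum_le_sum_abs _ _).trans ?_
  calc ∑ S ∈ F, |cell c B β k a u S v| ≤ ∑ _S ∈ F, (1 : ℝ) :=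
        Finset.sum_le_sum fun S hS => cell_abs hK (hFk S hS) v
    _ = F.card := by simp

/-- exponential moment under uniform shifts -/
lemma mgf_unif {a : ℝ} (ha : 0 < a) (u : Fin n → ℝ) {F : Finset (Finset (Fin n))}
    (hF : (F : Set (Finset (Fin n))).PairwiseDisjoint id) (hFk : ∀ S ∈ F, S.card ≤ k)
    (v : Fin n → ℝ) {l : ℝ} (hl : |l| ≤ 1) :
    ∫ t, Real.exp (l * total c B β k a u F (fun i => v i + a * t i))
      ∂(Measure.pi fun _ : Fin n => (volume : Measure ℝ).restrict (Ioc 0 1)) ≤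
      Real.exp (l ^ 2 * F.card) := by
  have hprob : IsProbabilityMeasure ((volume : Measure ℝ).restrict (Ioc 0 1)) := ⟨by simp⟩
  have h1 := mgf_blocks (fun _ : Fin n => (volume : Measure ℝ).restrict (Ioc 0 1)) F hF
    (fun S t => cell c B β k a u S (fun i => v i + a * t i))
    (fun S _ => cell_dep hK a u S a v) (fun S hS t => cell_abs hK (hFk S hS) _) hl
  refine h1.trans (le_of_eq ?_)
  congr 1
  have h2 : ∀ S ∈ F, ∫ t, cell c B β k a u S (fun i => v i + a * t i)
      ∂(Measure.pi fun _ : Fin n => (volume : Measure ℝ).restrict (Ioc 0 1)) = 0 := by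
    intro S _
    rw [int_cell hK]
    simp_rw [int_unif hK ha]
    rw [Finset.prod_const, sub_self, zero_div]
  rw [Finset.sum_eq_zero h2]
  ring

/-- the tail under Gaussian noise -/
lemma gauss_tail {a : ℝ} {v : ℝ≥0} {σ : ℝ} (hσ : σ ^ 2 = v) (hs : σ / a = s) (u : Fin n → ℝ)
    {F : Finset (Finset (Fin n))}
    (hF : (F : Set (Finset (Fin n))).PairwiseDisjoint id) (hFk : ∀ S ∈ F, S.card ≤ k)
    (x : Fin n → ℝ) (hx : ∀ S ∈ F, ∃ i ∈ S, τ ≤ Int.fract ((x i - u i) / a)) {l : ℝ}
    (hl0 : 0 ≤ l) (hl1 : l ≤ 1) (θ : ℝ) :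
    (Measure.pi fun _ : Fin n => gaussianReal 0 v).real
      {w | total c B β k a u F (fun i => x i + w i) ≤ θ} ≤
      Real.exp (l * θ - l * (β ^ k / (2 * (1 + B ^ k))) * F.card + l ^ 2 * F.card) := by
  have hB := hK.one_le
  have hBk : (0 : ℝ) < 1 + B ^ k := by positivity
  have hl : |(-l)| ≤ 1 := by rw [abs_neg, abs_of_nonneg hl0]; exact hl1
  have h1 := mgf_blocks (fun _ : Fin n => gaussianReal 0 v) F hF
    (fun S t => cell c B β k a u S (fun i => x i + 1 * t i))
    (fun S _ => cell_dep hK a u S 1 x) (fun S hS t => cell_abs hK (hFk S hS) _) hl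
  have h2 : ∀ S ∈ F, β ^ k / (2 * (1 + B ^ k)) ≤
      ∫ t, cell c B β k a u S (fun i => x i + 1 * t i)
        ∂(Measure.pi fun _ : Fin n => gaussianReal 0 v) := by
    intro S hS
    rw [int_cell hK]
    simp_rw [int_gauss hK hσ hs]
    obtain ⟨i, hi, hτi⟩ := hx S hS
    have h3 : |∏ j ∈ S, b ((x j - u j) / a)| ≤ β ^ k / 2 := by
      classical
      rw [Finset.abs_prod, ← Finset.mul_prod_erase S _ hi]
      have h4 : ∏ j ∈ S.erase i, |b ((x j - u j) / a)| ≤ 1 :=
        Finset.prod_le_one (fun j _ => abs_nonneg _) fun j _ => hK.b_abs _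
      have h5 := hK.b_small _ hτi
      have h6 : 0 ≤ β ^ k / 2 := by have := hK.pos; positivity
      calc |b ((x i - u i) / a)| * ∏ j ∈ S.erase i, |b ((x j - u j) / a)|
          ≤ (β ^ k / 2) * 1 :=
            mul_le_mul h5 h4 (Finset.prod_nonneg fun j _ => abs_nonneg _) h6
        _ = β ^ k / 2 := mul_one _
    have h7 : β ^ k ≤ β ^ S.card := pow_le_pow_of_le_one hK.pos.le hK.le_one (hFk S hS)
    have h8 := (abs_le.1 h3).2
    rw [div_le_div_iff₀ (by positivity) hBk]
    nlinarith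
  have hint : Integrable (fun w => Real.exp (-l * total c B β k a u F (fun i => x i + w i)))
      (Measure.pi fun _ : Fin n => gaussianReal 0 v) := by
    have hcont := total_cont hK a u F
    refine Integrable.mono' (integrable_const (Real.exp F.card))
      (Continuous.aestronglyMeasurable (by fun_prop)) ?_
    filter_upwards with w
    rw [Real.norm_eq_abs, Real.abs_exp]
    apply Real.exp_le_exp.2
    have h3 := total_abs hK (a := a) (u := u) hFk (fun i => x i + w i)
    have h4 := (abs_le.1 h3).1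
    have h5 : (0 : ℝ) ≤ F.card := Nat.cast_nonneg _
    nlinarith
  have h9 := measure_le_le_exp_mul_mgf (μ := Measure.pi fun _ : Fin n => gaussianReal 0 v)
    (X := fun w => total c B β k a u F (fun i => x i + w i)) (t := -l) θ (by linarith) hint
  refine h9.trans ?_
  unfold mgf
  have h10 : ∫ w, Real.exp (-l * total c B β k a u F (fun i => x i + w i))
      ∂(Measure.pi fun _ : Fin n => gaussianReal 0 v) ≤
      Real.exp (-l * (β ^ k / (2 * (1 + B ^ k))) * F.card + l ^ 2 * F.card) := by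
    simp only [one_mul] at h1 h2
    refine h1.trans ?_
    apply Real.exp_le_exp.2
    have h11 := Finset.sum_le_sum h2
    rw [Finset.sum_const, nsmul_eq_mul] at h11
    have h12 : (-l) ^ 2 = l ^ 2 := by ring
    rw [h12]
    nlinarith
  calc Real.exp (- -l * θ) * ∫ w, Real.exp (-l * total c B β k a u F (fun i => x i + w i))
        ∂(Measure.pi fun _ : Fin n => gaussianReal 0 v)
      ≤ Real.exp (- -l * θ) *
        Real.exp (-l * (β ^ k / (2 * (1 + B ^ k))) * F.card + l ^ 2 * F.card) :=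
        mul_le_mul_of_nonneg_left h10 (Real.exp_pos _).le
    _ = _ := by
        rw [← Real.exp_add]
        congr 1
        ring

end

end Run7.h748.Sph
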