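import Pool.Agent.Run7.h748.Sph.Tail
import Pool.Agent.R760.SP1

/-! Volumes of the two parts of the exclusion region. -/

set_option autoImplicit false

open MeasureTheory ProbabilityTheory Metric Set
open scoped NNReal ENNReal

namespace Run7.h748.Sph

variable {n : ℕ} {τ s : ℝ} {k : ℕ} {c b : ℝ → ℝ} {B β : ℝ}

/-- the part of a ball around an allowed centre where the sum is small -/
lemma vol_low (hK : Ker τ s k c b B β) {α : ℝ} (hα : 0 < α) (hn : 0 < n) (hs : 2 / α = s)
    (u : Fin n → ℝ) {F : Finset (Finset (Fin n))}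
    (hF : (F : Set (Finset (Fin n))).PairwiseDisjoint id) (hFk : ∀ S ∈ F, S.card ≤ k)
    (x : EuclideanSpace ℝ (Fin n))
    (hx : ∀ S ∈ F, ∃ i ∈ S, τ ≤ Int.fract ((x i - u i) / (α / √n))) {l : ℝ}
    (hl0 : 0 ≤ l) (hl1 : l ≤ 1) (θ : ℝ) :
    volume.real (ball x 2 ∩ {z : EuclideanSpace ℝ (Fin n) |
        total c B β k (α / √n) u F z.ofLp ≤ θ}) ≤
      (√(2 * Real.pi * (4 / n)) ^ n * Real.exp (n / 2)) *
      Real.exp (l * θ - l * (β ^ k / (2 * (1 + B ^ k))) * F.card + l ^ 2 * F.card) := by
  have hn0 : (0 : ℝ) < n := by exact_mod_cast hn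
  have hsq : 0 < √(n : ℝ) := Real.sqrt_pos.2 hn0
  set v : ℝ≥0 := 4 / n with hv
  have hvR : (v : ℝ) = 4 / n := by rw [hv]; push_cast; rfl
  have hv0 : v ≠ 0 := by
    intro h
    have h1 : (v : ℝ) = 0 := by rw [h]; rfl
    rw [hvR] at h1
    have : (0 : ℝ) < 4 / n := by positivity
    linarith
  have hσ : (2 / √(n : ℝ)) ^ 2 = (v : ℝ) := by
    rw [hvR, div_pow, Real.sq_sqrt hn0.le]
    norm_num
  have hσs : (2 / √(n : ℝ)) / (α / √n) = s := by
    rw [← hs]
    field_simp
  have h1 := gauss_tail hK hσ hσs u hF hFk x.ofLp hx hl0 hl1 θ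
  set A : Set (EuclideanSpace ℝ (Fin n)) := {z | total c B β k (α / √n) u F z.ofLp ≤ θ} with hA
  have hcont : Continuous (fun z : EuclideanSpace ℝ (Fin n) =>
      total c B β k (α / √n) u F z.ofLp) :=
    (total_cont hK _ u F).comp (PiLp.continuous_ofLp 2 _)
  have hAm : MeasurableSet A := (isClosed_le hcont continuous_const).measurableSet
  set A' : Set (EuclideanSpace ℝ (Fin n)) := (fun w => x + w) ⁻¹' A with hA'
  have hA'm : MeasurableSet A' := (continuous_const_add x).measurable hAm
  have h2 : volume (ball x 2 ∩ A) = volume (ball 0 2 ∩ A') := by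
    have h3 : (fun w => x + w) ⁻¹' (ball x 2 ∩ A) = ball 0 2 ∩ A' := by
      rw [preimage_inter]
      congr 1
      ext w
      simp [dist_eq_norm]
    rw [← h3, measure_preimage_add]
  set q : ℝ := ((√(2 * Real.pi * v))⁻¹) ^ n * Real.exp (-(n / 2)) with hq
  have hq0 : 0 < q := by
    rw [hq, hvR]
    positivity
  have h4 : ENNReal.ofReal q * volume (ball 0 2 ∩ A') ≤
      (Measure.pi fun _ : Fin n => gaussianReal 0 v)
        {w | total c B β k (α / √n) u F (fun i => x i + w i) ≤ θ} := by
    have h5 : (Measure.pi fun _ : Fin n => gaussianReal 0 v)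
        {w | total c B β k (α / √n) u F (fun i => x i + w i) ≤ θ} =
        ((Measure.pi fun _ : Fin n => gaussianReal 0 v).map (WithLp.toLp 2)) A' := by
      rw [Measure.map_apply (PiLp.continuous_toLp 2 _).measurable hA'm]
      rfl
    rw [h5, Pool.Agent.H992R2.map_toLp_pi_gaussian (Fin n) hv0, withDensity_apply _ hA'm]
    calc ENNReal.ofReal q * volume (ball 0 2 ∩ A')
        = ∫⁻ _ in ball (0 : EuclideanSpace ℝ (Fin n)) 2 ∩ A', ENNReal.ofReal q := by
          rw [setLIntegral_const]
      _ ≤ ∫⁻ z in ball (0 : EuclideanSpace ℝ (Fin n)) 2 ∩ A',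
            ENNReal.ofReal (Pool.Agent.H992R2.gdens (Fin n) v z) := by
          apply setLIntegral_mono' (measurableSet_ball.inter hA'm)
          intro z hz
          apply ENNReal.ofReal_le_ofReal
          unfold Pool.Agent.H992R2.gdens
          rw [Fintype.card_fin, hq]
          apply mul_le_mul_of_nonneg_left _ (by positivity)
          apply Real.exp_le_exp.2
          have h6 : ‖z‖ < 2 := by
            have := hz.1
            rwa [mem_ball_zero_iff] at this
          have h7 : ‖z‖ ^ 2 ≤ 4 := by nlinarith [norm_nonneg z]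
          rw [hvR, neg_div, neg_le_neg_iff, div_le_iff₀ (by positivity)]
          field_simp
          linarith
      _ ≤ _ := lintegral_mono_set inter_subset_right
  have h8 : volume.real (ball 0 2 ∩ A') ≤
      q⁻¹ * (Measure.pi fun _ : Fin n => gaussianReal 0 v).real
        {w | total c B β k (α / √n) u F (fun i => x i + w i) ≤ θ} := by
    have h9 := ENNReal.toReal_mono (measure_ne_top _ _) h4
    rw [ENNReal.toReal_mul, ENNReal.toReal_ofReal hq0.le] at h9
    rw [measureReal_def, measureReal_def, le_inv_mul_iff₀ hq0]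
    exact h9
  rw [measureReal_def, h2, ← measureReal_def]
  refine h8.trans ?_
  have h10 : q⁻¹ = √(2 * Real.pi * (4 / n)) ^ n * Real.exp (n / 2) := by
    rw [hq, hvR, mul_inv, inv_pow, inv_inv, Real.exp_neg, inv_inv]
  rw [h10]
  exact mul_le_mul_of_nonneg_left h1 (by positivity)

/-- the part of a large ball where the sum is large -/
lemma vol_high (hK : Ker τ s k c b B β) {α : ℝ} (hα : 0 < α) (hn : 0 < n)
    (u : Fin n → ℝ) {F : Finset (Finset (Fin n))}
    (hF : (F : Set (Finset (Fin n))).PairwiseDisjoint id) (hFk : ∀ S ∈ F, S.card ≤ k)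
    {l : ℝ} (hl0 : 0 ≤ l) (hl1 : l ≤ 1) (θ R : ℝ) :
    volume.real (ball (0 : EuclideanSpace ℝ (Fin n)) R ∩ {z : EuclideanSpace ℝ (Fin n) |
        θ ≤ total c B β k (α / √n) u F z.ofLp}) ≤
      Real.exp (-l * θ + l ^ 2 * F.card) *
        volume.real (ball (0 : EuclideanSpace ℝ (Fin n)) (R + α)) := by
  have hn0 : (0 : ℝ) < n := by exact_mod_cast hn
  have hsq : 0 < √(n : ℝ) := Real.sqrt_pos.2 hn0
  have hprob : IsProbabilityMeasure ((volume : Measure ℝ).restrict (Ioc 0 1)) := ⟨by simp⟩
  set a : ℝ := α / √n with ha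
  have ha0 : 0 < a := by rw [ha]; positivity
  set P : Measure (Fin n → ℝ) := Measure.pi fun _ : Fin n => (volume : Measure ℝ).restrict (Ioc 0 1)
    with hP
  set G : EuclideanSpace ℝ (Fin n) → ℝ≥0∞ := fun z =>
    ENNReal.ofReal (Real.exp (l * total c B β k a u F z.ofLp)) with hG
  have hcont : Continuous (fun z : EuclideanSpace ℝ (Fin n) => total c B β k a u F z.ofLp) :=
    (total_cont hK _ u F).comp (PiLp.continuous_ofLp 2 _)
  have hGc : Continuous G := by
    rw [hG]
    exact ENNReal.continuous_ofReal.comp (Real.continuous_exp.comp (hcont.const_mul l))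
  have hae : ∀ᵐ t ∂P, ∀ i, t i ∈ Ioc (0 : ℝ) 1 := by
    rw [hP]
    have h1 : (Measure.pi fun _ : Fin n => (volume : Measure ℝ).restrict (Ioc 0 1)) =
        (Measure.pi fun _ : Fin n => (volume : Measure ℝ)).restrict
          (Set.univ.pi fun _ => Ioc (0 : ℝ) 1) :=
      (Measure.restrict_pi_pi (fun _ : Fin n => (volume : Measure ℝ)) (fun _ => Ioc (0 : ℝ) 1)).symm
    rw [h1]
    filter_upwards [ae_restrict_mem (MeasurableSet.univ_pi fun _ => measurableSet_Ioc)] with t ht
    intro i
    exact ht i (mem_univ i)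
  have claim1 : ∀ t : Fin n → ℝ, (∀ i, t i ∈ Ioc (0 : ℝ) 1) →
      ∫⁻ z in ball (0 : EuclideanSpace ℝ (Fin n)) R, G z ≤
        ∫⁻ z in ball (0 : EuclideanSpace ℝ (Fin n)) (R + α), G (z + a • WithLp.toLp 2 t) := by
    intro t ht
    set y : EuclideanSpace ℝ (Fin n) := a • WithLp.toLp 2 t with hy
    have hyn : ‖y‖ ≤ α := by
      rw [hy, norm_smul, Real.norm_of_nonneg ha0.le]
      have h1 : ‖(WithLp.toLp 2 t : EuclideanSpace ℝ (Fin n))‖ ≤ √n := by
        rw [EuclideanSpace.norm_eq]
        apply Real.sqrt_le_sqrt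
        calc ∑ i, ‖(WithLp.toLp 2 t : EuclideanSpace ℝ (Fin n)) i‖ ^ 2 ≤ ∑ _i : Fin n, (1 : ℝ) := by
              apply Finset.sum_le_sum
              intro i _
              have h2 := ht i
              show ‖t i‖ ^ 2 ≤ 1
              rw [Real.norm_of_nonneg h2.1.le]
              nlinarith [h2.1, h2.2]
          _ = n := by simp
      calc a * ‖(WithLp.toLp 2 t : EuclideanSpace ℝ (Fin n))‖ ≤ a * √n :=
            mul_le_mul_of_nonneg_left h1 ha0.le
        _ = α := by rw [ha]; field_simp
    rw [← lintegral_indicator measurableSet_ball, ← lintegral_indicator measurableSet_ball,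
      ← lintegral_add_right_eq_self _ y]
    apply lintegral_mono
    intro z
    by_cases hz : z + y ∈ ball (0 : EuclideanSpace ℝ (Fin n)) R
    · have hz' : z ∈ ball (0 : EuclideanSpace ℝ (Fin n)) (R + α) := by
        rw [mem_ball_zero_iff] at hz ⊢
        calc ‖z‖ = ‖(z + y) - y‖ := by rw [add_sub_cancel_right]
          _ ≤ ‖z + y‖ + ‖y‖ := norm_sub_le _ _
          _ < R + α := by linarith
      simp only [indicator_of_mem hz, indicator_of_mem hz', le_refl]
    · simp only [indicator_of_notMem hz, zero_le]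
  have claim3 : ∀ z : EuclideanSpace ℝ (Fin n), ∫⁻ t, G (z + a • WithLp.toLp 2 t) ∂P ≤
      ENNReal.ofReal (Real.exp (l ^ 2 * F.card)) := by
    intro z
    have h1 := mgf_unif hK ha0 u hF hFk z.ofLp (l := l) (by rw [abs_of_nonneg hl0]; exact hl1)
    have h2 : ∫⁻ t, G (z + a • WithLp.toLp 2 t) ∂P =
        ENNReal.ofReal (∫ t, Real.exp (l * total c B β k a u F (fun i => z.ofLp i + a * t i)) ∂P) := by
      rw [ofReal_integral_eq_lintegral_ofReal]
      · rfl
      · have hc2 := total_cont hK a u F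
        refine Integrable.mono' (integrable_const (Real.exp F.card))
          (Continuous.aestronglyMeasurable (by fun_prop)) ?_
        filter_upwards with w
        rw [Real.norm_eq_abs, Real.abs_exp]
        apply Real.exp_le_exp.2
        have h3 := total_abs hK (a := a) (u := u) hFk (fun i => z.ofLp i + a * w i)
        have h4 := (abs_le.1 h3).2
        have h5 : (0 : ℝ) ≤ F.card := Nat.cast_nonneg _
        nlinarith
      · exact Filter.Eventually.of_forall fun t => (Real.exp_pos _).le
    rw [h2]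
    exact ENNReal.ofReal_le_ofReal h1
  have claim2 : ∫⁻ z in ball (0 : EuclideanSpace ℝ (Fin n)) R, G z ≤
      ENNReal.ofReal (Real.exp (l ^ 2 * F.card)) *
        volume (ball (0 : EuclideanSpace ℝ (Fin n)) (R + α)) := by
    calc ∫⁻ z in ball (0 : EuclideanSpace ℝ (Fin n)) R, G z
        = ∫⁻ _t, (∫⁻ z in ball (0 : EuclideanSpace ℝ (Fin n)) R, G z) ∂P := by
          rw [lintegral_const, measure_univ, mul_one]
      _ ≤ ∫⁻ t, (∫⁻ z in ball (0 : EuclideanSpace ℝ (Fin n)) (R + α),
            G (z + a • WithLp.toLp 2 t)) ∂P := by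
          apply lintegral_mono_ae
          filter_upwards [hae] with t ht
          exact claim1 t ht
      _ = ∫⁻ z in ball (0 : EuclideanSpace ℝ (Fin n)) (R + α),
            ∫⁻ t, G (z + a • WithLp.toLp 2 t) ∂P := by
          apply lintegral_lintegral_swap
          apply Measurable.aemeasurable
          have : Continuous (Function.uncurry fun (t : Fin n → ℝ) (z : EuclideanSpace ℝ (Fin n)) =>
              G (z + a • WithLp.toLp 2 t)) := by
            have h1 : Continuous (fun t : Fin n → ℝ =>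
              (WithLp.toLp 2 t : EuclideanSpace ℝ (Fin n))) := PiLp.continuous_toLp 2 _
            exact hGc.comp (continuous_snd.add ((h1.comp continuous_fst).const_smul a))
          exact this.measurable
      _ ≤ ∫⁻ _z in ball (0 : EuclideanSpace ℝ (Fin n)) (R + α),
            ENNReal.ofReal (Real.exp (l ^ 2 * F.card)) := lintegral_mono claim3
      _ = _ := by rw [setLIntegral_const]
  have claim4 : ENNReal.ofReal (Real.exp (l * θ)) *
      volume (ball (0 : EuclideanSpace ℝ (Fin n)) R ∩ {z : EuclideanSpace ℝ (Fin n) |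
        θ ≤ total c B β k a u F z.ofLp}) ≤ ∫⁻ z in ball (0 : EuclideanSpace ℝ (Fin n)) R, G z := by
    have h1 := mul_meas_ge_le_lintegral
      (μ := volume.restrict (ball (0 : EuclideanSpace ℝ (Fin n)) R)) hGc.measurable
      (ENNReal.ofReal (Real.exp (l * θ)))
    refine le_trans (mul_le_mul' le_rfl ?_) h1
    rw [Measure.restrict_apply' measurableSet_ball]
    apply measure_mono
    rintro z ⟨hz1, hz2⟩
    refine ⟨?_, hz1⟩
    apply ENNReal.ofReal_le_ofReal
    apply Real.exp_le_exp.2
    exact mul_le_mul_of_nonneg_left hz2 hl0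
  have h5 := ENNReal.toReal_mono (ENNReal.mul_ne_top ENNReal.ofReal_ne_top measure_ball_lt_top.ne)
    (claim4.trans claim2)
  rw [ENNReal.toReal_mul, ENNReal.toReal_mul, ENNReal.toReal_ofReal (Real.exp_pos _).le,
    ENNReal.toReal_ofReal (Real.exp_pos _).le, ← measureReal_def, ← measureReal_def] at h5
  rw [Real.exp_add, mul_assoc]
  have h6 : Real.exp (-l * θ) * Real.exp (l * θ) = 1 := by
    rw [← Real.exp_add]
    simp
  have h7 := mul_le_mul_of_nonneg_left h5 (Real.exp_pos (-l * θ)).le
  rw [← mul_assoc, h6, one_mul] at h7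
  exact h7

end Run7.h748.Sph
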